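import Pool.Agent.Helper3.KM.SpMax

/-!
The Casimir operator of the symplectic Lie algebra on bilinear forms.
-/

set_option autoImplicit false

open Matrix Pool.Agent.Helper98.CK

namespace Pool.Agent.Helper3.KM

section R
variable {R : Type*} [CommRing R] {m : Type*} [Fintype m] {ι : Type*} [Fintype ι]

/-- the Casimir operator -/
def th (H : Matrix ι ι R) (X : ι → Matrix m m R) (b : Matrix m m R) : Matrix m m R :=
  ∑ i, ∑ j, H i j • ((X i)ᵀ * b * X j)

/-- its matrix -/
def TT (H : Matrix ι ι R) (X : ι → Matrix m m R) : Matrix (m × m) (m × m) R :=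
  Matrix.of fun z w => ∑ i, ∑ j, H i j * (X i w.1 z.1 * X j w.2 z.2)

theorem TT_mulVec (H : Matrix ι ι R) (X : ι → Matrix m m R) (b : Matrix m m R) :
    TT H X *ᵥ (fun z => b z.1 z.2) = fun z => th H X b z.1 z.2 := by
  ext z
  have e1 : ∀ i j, ((X i)ᵀ * b * X j) z.1 z.2 = ∑ w : m × m, X i w.1 z.1 * X j w.2 z.2 * b w.1 w.2 := by
    intro i j
    rw [Fintype.sum_prod_type_right]
    simp only [mul_apply, transpose_apply, Finset.sum_mul]
    refine Finset.sum_congr rfl fun t _ => Finset.sum_congr rfl fun s _ => by ring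
  simp only [mulVec, dotProduct, TT, of_apply, th, Matrix.sum_apply, Matrix.smul_apply, e1, smul_eq_mul]
  simp only [Finset.sum_mul, Finset.mul_sum]
  rw [Finset.sum_comm]
  refine Finset.sum_congr rfl fun i _ => ?_
  rw [Finset.sum_comm]
  refine Finset.sum_congr rfl fun j _ => Finset.sum_congr rfl fun w _ => by ring

omit [Fintype m] in
theorem TT_map {S : Type*} [CommRing S] (f : R →+* S) (H : Matrix ι ι R) (X : ι → Matrix m m R) :
    (TT H X).map f = TT (H.map f) (fun i => (X i).map f) := by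
  ext z w
  simp [TT, map_sum]

theorem th_map {S : Type*} [CommRing S] (f : R →+* S) (H : Matrix ι ι R) (X : ι → Matrix m m R) (b : Matrix m m R) :
    (th H X b).map f = th (H.map f) (fun i => (X i).map f) (b.map f) := by
  ext p q
  simp only [th, Matrix.map_apply, Matrix.sum_apply, Matrix.smul_apply, map_sum, smul_eq_mul, map_mul,
    mul_apply, transpose_apply]

theorem th_sub (H : Matrix ι ι R) (X : ι → Matrix m m R) (b c : Matrix m m R) :
    th H X (b - c) = th H X b - th H X c := by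
  simp only [th, mul_sub, sub_mul, smul_sub, Finset.sum_sub_distrib]

theorem th_smul (H : Matrix ι ι R) (X : ι → Matrix m m R) (a : R) (b : Matrix m m R) :
    th H X (a • b) = a • th H X b := by
  simp only [th, Matrix.mul_smul, Matrix.smul_mul, Finset.smul_sum, smul_smul, mul_comm a]

/-- the Casimir operator commutes with the Lie algebra -/
theorem th_comm [DecidableEq ι] {H G : Matrix ι ι R} {X : ι → Matrix m m R} (hG : ∀ i j, G i j = (X i * X j).trace)
    (hHG : H * G = 1) (x : Matrix m m R) (hx : ∀ i, ∃ a : ι → R, x * X i - X i * x = ∑ k, a k • X k)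
    (b : Matrix m m R) : th H X (xᵀ * b + b * x) = xᵀ * th H X b + th H X b * x := by
  choose a ha using hx
  obtain ⟨A, hA⟩ : ∃ A : Matrix ι ι R, A = Matrix.of a := ⟨_, rfl⟩
  have h1 : A * G + G * Aᵀ = 0 := by
    ext i j
    have e1 : (A * G) i j = ((x * X i - X i * x) * X j).trace := by
      rw [ha i, Finset.sum_mul, Matrix.trace_sum, mul_apply]
      refine Finset.sum_congr rfl fun k _ => ?_
      rw [Matrix.smul_mul, Matrix.trace_smul, hG, hA]
      rfl
    have e2 : (G * Aᵀ) i j = (X i * (x * X j - X j * x)).trace := by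
      rw [ha j, Finset.mul_sum, Matrix.trace_sum, mul_apply]
      refine Finset.sum_congr rfl fun k _ => ?_
      rw [Matrix.mul_smul, Matrix.trace_smul, hG, hA, smul_eq_mul, mul_comm]
      rfl
    rw [Matrix.add_apply, e1, e2, Matrix.zero_apply, ← Matrix.trace_add]
    have e3 : (x * X i - X i * x) * X j + X i * (x * X j - X j * x) = x * (X i * X j) - (X i * X j) * x := by
      noncomm_ring
    rw [e3, Matrix.trace_sub, Matrix.trace_mul_comm, sub_self]
  have hGH : G * H = 1 := mul_eq_one_comm.1 hHG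
  have h2 : H * A + Aᵀ * H = 0 := by
    have h3 := congrArg (fun M => H * M * H) h1
    simp only [mul_zero, zero_mul, mul_add, add_mul] at h3
    have e1 : H * (A * G) * H = H * A := by
      rw [mul_assoc, mul_assoc, hGH, mul_one]
    have e2 : H * (G * Aᵀ) * H = Aᵀ * H := by
      rw [← mul_assoc, hHG, one_mul]
    rwa [e1, e2] at h3
  have key : xᵀ * th H X b + th H X b * x - th H X (xᵀ * b + b * x)
      = - ∑ k, ∑ j, (H * A + Aᵀ * H) k j • ((X k)ᵀ * b * X j) := by
    have e1 : xᵀ * th H X b + th H X b * x - th H X (xᵀ * b + b * x)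
        = - ((∑ i, ∑ j, H i j • ((∑ k, a i k • X k)ᵀ * b * X j)) + ∑ i, ∑ j, H i j • ((X i)ᵀ * b * ∑ k, a j k • X k)) := by
      rw [← Finset.sum_add_distrib, ← Finset.sum_neg_distrib, th, th, Finset.mul_sum, Finset.sum_mul,
        ← Finset.sum_add_distrib, ← Finset.sum_sub_distrib]
      refine Finset.sum_congr rfl fun i _ => ?_
      rw [← Finset.sum_add_distrib, ← Finset.sum_neg_distrib, Finset.mul_sum, Finset.sum_mul,
        ← Finset.sum_add_distrib, ← Finset.sum_sub_distrib]
      refine Finset.sum_congr rfl fun j _ => ?_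
      rw [← ha i, ← ha j, transpose_sub, transpose_mul, transpose_mul, Matrix.mul_smul, Matrix.smul_mul, ← smul_add,
        ← smul_sub, ← smul_add, ← smul_neg]
      congr 1
      noncomm_ring
    rw [e1]
    congr 1
    have e2 : ∑ i, ∑ j, H i j • ((∑ k, a i k • X k)ᵀ * b * X j) = ∑ k, ∑ j, (Aᵀ * H) k j • ((X k)ᵀ * b * X j) := by
      simp only [transpose_sum, transpose_smul, Finset.sum_mul, Matrix.smul_mul, Finset.smul_sum, smul_smul, mul_apply,
        transpose_apply, Finset.sum_smul]
      rw [Finset.sum_comm]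
      rw [Finset.sum_comm' (t' := Finset.univ) (s' := fun _ => Finset.univ) (by simp)]
      have : ∀ f : ι → ι → ι → Matrix m m R, ∑ i, ∑ j, ∑ k, f i j k = ∑ k, ∑ j, ∑ i, f i j k := by
        intro f
        calc ∑ i, ∑ j, ∑ k, f i j k = ∑ i, ∑ k, ∑ j, f i j k := Finset.sum_congr rfl fun i _ => Finset.sum_comm
          _ = ∑ k, ∑ i, ∑ j, f i j k := Finset.sum_comm
          _ = ∑ k, ∑ j, ∑ i, f i j k := Finset.sum_congr rfl fun i _ => Finset.sum_comm
      rw [this]
      refine Finset.sum_congr rfl fun k _ => Finset.sum_congr rfl fun j _ => Finset.sum_congr rfl fun i _ => ?_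
      rw [hA, of_apply, mul_comm]
    have e3 : ∑ i, ∑ j, H i j • ((X i)ᵀ * b * ∑ k, a j k • X k) = ∑ k, ∑ j, (H * A) k j • ((X k)ᵀ * b * X j) := by
      simp only [Finset.mul_sum, Matrix.mul_smul, Finset.smul_sum, smul_smul, mul_apply, Finset.sum_smul]
      refine Finset.sum_congr rfl fun i _ => ?_
      rw [Finset.sum_comm]
      refine Finset.sum_congr rfl fun k _ => Finset.sum_congr rfl fun j _ => ?_
      rw [hA, of_apply]
    rw [e2, e3, ← Finset.sum_add_distrib]
    refine Finset.sum_congr rfl fun k _ => ?_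
    rw [← Finset.sum_add_distrib]
    refine Finset.sum_congr rfl fun j _ => ?_
    rw [← add_smul, add_comm, Matrix.add_apply]
  rw [h2] at key
  simp only [Matrix.zero_apply, zero_smul, Finset.sum_const_zero, neg_zero] at key
  exact (sub_eq_zero.1 key).symm

end R

section F
variable {F : Type*} [Field F] {m : Type*} [Fintype m] [DecidableEq m]

theorem J_transpose {J : Matrix m m F} (hJa : ∀ v, B98 J v v = 0) : Jᵀ = -J := by
  ext i j
  have h := B_alt hJa (Pi.single j 1) (Pi.single i 1)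
  simpa [B98] using h

/-- the adjoint -/
noncomputable def ad3 (J M : Matrix m m F) : Matrix m m F := J⁻¹ * Mᵀ * J

/-- the symplectic Lie algebra -/
noncomputable def sp3 (J : Matrix m m F) : Submodule F (Matrix m m F) where
  carrier := {x | ad3 J x = -x}
  add_mem' := by
    intro x y hx hy
    simp only [Set.mem_ofPred_eq, ad3] at hx hy ⊢
    rw [transpose_add, mul_add, add_mul, hx, hy, neg_add]
  zero_mem' := by simp [ad3]
  smul_mem' := by
    intro c x hx
    simp only [Set.mem_ofPred_eq, ad3] at hx ⊢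
    rw [transpose_smul, Matrix.mul_smul, Matrix.smul_mul, hx, smul_neg]

theorem mem_sp3 {J x : Matrix m m F} : x ∈ sp3 J ↔ ad3 J x = -x := Iff.rfl

theorem ad3_mul {J : Matrix m m F} (hJ : IsUnit J.det) (x y : Matrix m m F) : ad3 J (x * y) = ad3 J y * ad3 J x := by
  have hJi' : J * J⁻¹ = 1 := mul_nonsing_inv _ hJ
  simp only [ad3, transpose_mul]
  calc J⁻¹ * (yᵀ * xᵀ) * J = J⁻¹ * yᵀ * 1 * xᵀ * J := by noncomm_ring
    _ = J⁻¹ * yᵀ * (J * J⁻¹) * xᵀ * J := by rw [hJi']
    _ = J⁻¹ * yᵀ * J * (J⁻¹ * xᵀ * J) := by noncomm_ring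

theorem ad3_trace {J : Matrix m m F} (hJ : IsUnit J.det) (x : Matrix m m F) : (ad3 J x).trace = x.trace := by
  rw [ad3, Matrix.trace_mul_comm, ← mul_assoc, mul_nonsing_inv _ hJ, one_mul, trace_transpose]

theorem ad3_ad3 {J : Matrix m m F} (hJ : IsUnit J.det) (hJa : ∀ v, B98 J v v = 0) (x : Matrix m m F) :
    ad3 J (ad3 J x) = x := by
  have hJi : J⁻¹ * J = 1 := nonsing_inv_mul _ hJ
  have h4 : (-J)⁻¹ = - J⁻¹ := by
    apply inv_eq_left_inv
    rw [neg_mul_neg, hJi]
  rw [ad3, ad3, transpose_mul, transpose_mul, transpose_transpose, transpose_nonsing_inv, J_transpose hJa, h4, mul_neg,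
    neg_mul_neg]
  calc J⁻¹ * (J * (x * J⁻¹)) * J = (J⁻¹ * J) * x * (J⁻¹ * J) := by noncomm_ring
    _ = x := by rw [hJi, one_mul, mul_one]

theorem ad3_trace_mul {J : Matrix m m F} (hJ : IsUnit J.det) (hJa : ∀ v, B98 J v v = 0) {s : Matrix m m F}
    (hs : s ∈ sp3 J) (M : Matrix m m F) : (ad3 J M * s).trace = - (M * s).trace := by
  rw [← ad3_trace hJ, ad3_mul hJ, ad3_ad3 hJ hJa, mem_sp3.1 hs, neg_mul, trace_neg, Matrix.trace_mul_comm]

theorem sub_ad3_mem {J : Matrix m m F} (hJ : IsUnit J.det) (hJa : ∀ v, B98 J v v = 0) (M : Matrix m m F) :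
    M - ad3 J M ∈ sp3 J := by
  rw [mem_sp3]
  have : ad3 J (M - ad3 J M) = ad3 J M - ad3 J (ad3 J M) := by
    simp only [ad3, transpose_sub, mul_sub, sub_mul]
  rw [this, ad3_ad3 hJ hJa, neg_sub]

theorem sub_ad3_eq {J : Matrix m m F} (hJ : IsUnit J.det) (hJa : ∀ v, B98 J v v = 0) (c : Matrix m m F) :
    c - ad3 J c = ∑ i, (E98 J (c *ᵥ Pi.single i 1) (J⁻¹ *ᵥ Pi.single i 1)
      + E98 J (J⁻¹ *ᵥ Pi.single i 1) (c *ᵥ Pi.single i 1)) := by
  have hJt := J_transpose hJa
  have hJi : J⁻¹ * J = 1 := nonsing_inv_mul _ hJ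
  have hJi' : J * J⁻¹ = 1 := mul_nonsing_inv _ hJ
  have hE1 : ∀ i j : m, E98 J (Pi.single i (1 : F)) (J⁻¹ *ᵥ Pi.single j 1) = Matrix.single i j 1 := by
    intro i j
    rw [E98, mulVec_mulVec, hJi', one_mulVec]
    ext k l
    rw [vecMulVec_apply, Matrix.single_apply]
    by_cases hk : i = k
    · subst hk
      by_cases hl : j = l
      · subst hl; simp
      · simp [hl, Ne.symm hl]
    · simp [hk, Pi.single_apply, Ne.symm hk]
  have hdec : ∀ M : Matrix m m F, M = ∑ i, E98 J (M *ᵥ Pi.single i 1) (J⁻¹ *ᵥ Pi.single i 1) := by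
    intro M
    have h1 : (1 : Matrix m m F) = ∑ i, Matrix.single i i (1 : F) := by
      rw [Matrix.sum_single_one]
    calc M = M * 1 := (mul_one M).symm
      _ = ∑ i, M * Matrix.single i i (1 : F) := by rw [h1, Finset.mul_sum]
      _ = _ := by
        refine Finset.sum_congr rfl fun i _ => ?_
        rw [← hE1, mul_E98]
  have hadE : ∀ v w : m → F, J⁻¹ * (E98 J v w)ᵀ * J = - E98 J w v := by
    intro v w
    rw [E98, transpose_vecMulVec, mul_vecMulVec, mulVec_mulVec, hJi, one_mulVec, vecMulVec_mul, ← mulVec_transpose, hJt,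
      neg_mulVec, E98]
    ext i j
    simp [vecMulVec_apply]
  have e1 : ad3 J c = - ∑ i, E98 J (J⁻¹ *ᵥ Pi.single i 1) (c *ᵥ Pi.single i 1) := by
    rw [ad3]
    conv_lhs => rw [hdec c]
    rw [transpose_sum, Finset.mul_sum, Finset.sum_mul, ← Finset.sum_neg_distrib]
    exact Finset.sum_congr rfl fun i _ => hadE _ _
  rw [e1, sub_neg_eq_add]
  conv in c + _ => lhs; rw [hdec c]
  rw [← Finset.sum_add_distrib]

/-- the trace form is not degenerate -/
theorem sp3_nondeg {J : Matrix m m F} (h2 : (2 : F) ≠ 0) (hJ : IsUnit J.det) (hJa : ∀ v, B98 J v v = 0)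
    {x : Matrix m m F} (hx : x ∈ sp3 J) (h : ∀ y ∈ sp3 J, (y * x).trace = 0) : x = 0 := by
  have h1 : ∀ M : Matrix m m F, (M * x).trace = 0 := by
    intro M
    have h3 := h _ (sub_ad3_mem hJ hJa M)
    rw [sub_mul, Matrix.trace_sub, ad3_trace_mul hJ hJa hx, sub_neg_eq_add, ← two_mul] at h3
    exact (mul_eq_zero.1 h3).resolve_left h2
  ext i j
  have h3 := h1 (Matrix.single j i 1)
  rw [Matrix.trace_single_mul] at h3
  simpa using h3

/-- the Casimir operator of the symplectic Lie algebra -/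
theorem th_sp {J : Matrix m m F} (hJ : IsUnit J.det) (hJa : ∀ v, B98 J v v = 0)
    {ι : Type*} [Fintype ι] [DecidableEq ι] {s : ι → Matrix m m F} (hs : ∀ i, s i ∈ sp3 J)
    (hspan : ∀ y ∈ sp3 J, ∃ c : ι → F, y = ∑ k, c k • s k)
    {H G : Matrix ι ι F} (hG : ∀ i j, G i j = (s i * s j).trace) (hHG : H * G = 1) (b : Matrix m m F) :
    (2 : F) • th H s b = bᵀ - (b * J⁻¹).trace • J := by
  have hGH : G * H = 1 := mul_eq_one_comm.1 hHG
  have k1 : ∀ M : Matrix m m F, (2 : F) • ∑ i, ∑ j, (H i j * (M * s i).trace) • s j = M - ad3 J M := by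
    intro M
    obtain ⟨c, hc⟩ := hspan _ (sub_ad3_mem hJ hJa M)
    have e1 : ∀ i, 2 * (M * s i).trace = ∑ k, c k * G k i := by
      intro i
      have e2 : ((M - ad3 J M) * s i).trace = 2 * (M * s i).trace := by
        rw [sub_mul, Matrix.trace_sub, ad3_trace_mul hJ hJa (hs i)]
        ring
      rw [← e2, hc, Finset.sum_mul, Matrix.trace_sum]
      refine Finset.sum_congr rfl fun k _ => ?_
      rw [Matrix.smul_mul, Matrix.trace_smul, hG, smul_eq_mul]
    rw [Finset.smul_sum]
    simp only [Finset.smul_sum, smul_smul]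
    have e3 : ∀ i j, 2 * (H i j * (M * s i).trace) = ∑ k, c k * (G k i * H i j) := by
      intro i j
      calc 2 * (H i j * (M * s i).trace) = (2 * (M * s i).trace) * H i j := by ring
        _ = _ := by
          rw [e1, Finset.sum_mul]
          exact Finset.sum_congr rfl fun k _ => by ring
    simp only [e3]
    rw [Finset.sum_comm]
    simp only [← Finset.sum_smul]
    have e4 : ∀ j, ∑ i, ∑ k, c k * (G k i * H i j) = c j := by
      intro j
      rw [Finset.sum_comm]
      simp only [← Finset.mul_sum]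
      have e5 : ∀ k, ∑ i, G k i * H i j = (1 : Matrix ι ι F) k j := by
        intro k
        rw [← hGH, mul_apply]
      simp only [e5, Matrix.one_apply]
      simp
    simp only [e4]
    exact hc.symm
  ext p q
  have e1 : ((2 : F) • th H s b) p q = ∑ w : m × m, b w.1 w.2 *
      ((2 : F) • ∑ i, ∑ j, (H i j * (Matrix.single p w.1 1 * s i).trace) • s j) w.2 q := by
    have e2 : ∀ (i : ι) (w : m), (Matrix.single p w (1 : F) * s i).trace = s i w p := by
      intro i w
      rw [Matrix.trace_single_mul]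
      simp
    have e3 := congrFun (TT_mulVec H s b) (p, q)
    simp only at e3
    rw [Matrix.smul_apply, ← e3, smul_eq_mul, mulVec, dotProduct, Finset.mul_sum]
    refine Finset.sum_congr rfl fun w _ => ?_
    simp only [e2, TT, of_apply, Matrix.smul_apply, Matrix.sum_apply, smul_eq_mul]
    have e4 : ∑ i, ∑ j, H i j * (s i w.1 p * s j w.2 q) = ∑ i, ∑ j, H i j * s i w.1 p * s j w.2 q :=
      Finset.sum_congr rfl fun i _ => Finset.sum_congr rfl fun j _ => by ring
    rw [e4]
    ring
  rw [e1]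
  simp only [k1]
  simp only [ad3, Matrix.sub_apply, transpose_apply, Matrix.smul_apply, smul_eq_mul]
  have e5 : ∀ w : m × m, (J⁻¹ * (Matrix.single p w.1 (1 : F))ᵀ * J) w.2 q = J⁻¹ w.2 w.1 * J p q := by
    intro w
    rw [Matrix.transpose_single, mul_apply]
    rw [Finset.sum_eq_single p]
    · simp
    · intro t _ ht
      simp [ht]
    · simp
  simp only [e5, mul_sub, Finset.sum_sub_distrib]
  congr 1
  · rw [Finset.sum_eq_single (q, p)]
    · simp
    · rintro ⟨a, c⟩ - hac
      simp only [Matrix.single_apply]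
      split_ifs with h
      · exact absurd (by rw [h.1, h.2]) hac
      · simp
    · simp
  · rw [Matrix.trace, Finset.sum_mul, Fintype.sum_prod_type]
    refine Finset.sum_congr rfl fun a _ => ?_
    rw [diag_apply, mul_apply, Finset.sum_mul]
    exact Finset.sum_congr rfl fun c _ => by ring

end F

end Pool.Agent.Helper3.KM
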