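import Pool.Agent.Helper3.KM.Cas1
import Pool.Agent.Helper98.KM.RedL

/-!
A Lie algebra of matrices over an algebraically closed field with a valuation ring, whose reduction is the symplectic Lie
algebra (up to scalars), consists of similitudes of a bilinear form.
-/

set_option autoImplicit false

open Matrix Pool.Agent.Helper98.CK Pool.Agent.Helper79.KM

namespace Pool.Agent.Helper3.KM

open Polynomial in
theorem root_lift {K : Type*} [Field K] [IsAlgClosed K] (O : ValuationSubring K) {p : Polynomial O} (hp : p.Monic)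
    {c : IsLocalRing.ResidueField O} (hc : (p.map (IsLocalRing.residue O)).eval c = 0) :
    ∃ r : O, (p.map (algebraMap O K)).eval (algebraMap O K r) = 0 ∧ IsLocalRing.residue O r = c := by
  have h1 := (IsAlgClosed.splits (p.map (algebraMap O K))).eq_prod_roots_of_monic (hp.map _)
  have h2 : ∀ x ∈ (p.map (algebraMap O K)).roots, ∃ y : O, algebraMap O K y = x := by
    intro x hx
    rw [← IsIntegrallyClosed.isIntegral_iff]
    refine ⟨p, hp, ?_⟩
    rw [← eval_map]
    exact (Polynomial.mem_roots'.1 hx).2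
  have h3 : ∀ t : Multiset K, (∀ x ∈ t, ∃ y : O, algebraMap O K y = x) → ∃ s : Multiset O, s.map (algebraMap O K) = t := by
    intro t
    induction t using Multiset.induction_on with
    | empty => exact fun _ => ⟨0, rfl⟩
    | cons a t ih =>
      intro h
      obtain ⟨s, hs⟩ := ih fun x hx => h x (Multiset.mem_cons_of_mem hx)
      obtain ⟨y, hy⟩ := h a (Multiset.mem_cons_self _ _)
      exact ⟨y ::ₘ s, by rw [Multiset.map_cons, hs, hy]⟩
  obtain ⟨s, hs⟩ := h3 _ h2
  have h4 : p = (s.map (fun a => X - C a)).prod := by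
    apply Polynomial.map_injective (algebraMap O K) (FaithfulSMul.algebraMap_injective O K)
    rw [h1, ← hs, Polynomial.map_multiset_prod, Multiset.map_map, Multiset.map_map]
    congr 1
    refine Multiset.map_congr rfl fun a _ => ?_
    simp
  have h5 := hc
  rw [h4, Polynomial.map_multiset_prod, eval_multiset_prod, Multiset.prod_eq_zero_iff, Multiset.map_map,
    Multiset.map_map] at h5
  obtain ⟨r, hr, h6⟩ := Multiset.mem_map.1 h5
  simp only [Function.comp_apply, Polynomial.map_sub, map_X, map_C, eval_sub, eval_X, eval_C] at h6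
  refine ⟨r, ?_, (sub_eq_zero.1 h6).symm⟩
  have h7 : algebraMap O K r ∈ (p.map (algebraMap O K)).roots := by
    rw [← hs]
    exact Multiset.mem_map_of_mem _ hr
  exact (Polynomial.mem_roots'.1 h7).2

variable {K : Type*} [Field K] {m : Type*} [Fintype m] [DecidableEq m]

theorem casimir [IsAlgClosed K] (O : ValuationSubring K) (h2 : (2 : IsLocalRing.ResidueField O) ≠ 0)
    (hN : ((Fintype.card m : ℕ) : IsLocalRing.ResidueField O) ≠ 0)
    (hN2 : ((Fintype.card m + 2 : ℕ) : IsLocalRing.ResidueField O) ≠ 0)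
    {J : Matrix m m (IsLocalRing.ResidueField O)} (hJ : IsUnit J.det) (hJa : ∀ v, B98 J v v = 0)
    (L : Submodule K (Matrix m m K)) (hbr : ∀ x ∈ L, ∀ y ∈ L, x * y - y * x ∈ L)
    (hS : ∀ v w, E98 J v w + E98 J w v ∈ redL O L)
    (hG : ∀ c ∈ redL O L, ∃ l : IsLocalRing.ResidueField O, cᵀ * J + J * c = l • J) :
    ∃ b : Matrix m m K, IsUnit b.det ∧ ∀ x ∈ L, ∃ μ : K, xᵀ * b + b * x = μ • b := by
  classical
  have hJi : J⁻¹ * J = 1 := nonsing_inv_mul _ hJ
  have hJi' : J * J⁻¹ = 1 := mul_nonsing_inv _ hJ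
  have hinj : Function.Injective (algebraMap O K) := FaithfulSMul.algebraMap_injective O K
  -- the elements of trace zero
  obtain ⟨L0, hL0⟩ : ∃ L0 : Submodule K (Matrix m m K), ∀ x, x ∈ L0 ↔ x ∈ L ∧ x.trace = 0 :=
    ⟨L ⊓ LinearMap.ker (Matrix.traceLinearMap m K K), fun x => by simp⟩
  have hmem : ∀ (M : Submodule K (Matrix m m K)) (c : Matrix m m (IsLocalRing.ResidueField O)), c ∈ redL O M ↔
      ∃ a : Matrix m m O, a.map (algebraMap O K) ∈ M ∧ a.map (IsLocalRing.residue O) = c := fun _ _ => Iff.rfl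
  have hup : ∀ c ∈ redL O L0, c ∈ sp3 J := by
    intro c hc
    obtain ⟨a, ha, rfl⟩ := (hmem _ _).1 hc
    obtain ⟨ha1, ha2⟩ := (hL0 _).1 ha
    obtain ⟨l, hl⟩ := hG _ ((hmem _ _).2 ⟨a, ha1, rfl⟩)
    have ht : (a.map (IsLocalRing.residue O)).trace = 0 := by
      have h1 : a.trace = 0 := by
        apply hinj
        rw [map_zero, ← ha2]
        exact AddMonoidHom.map_trace (algebraMap O K).toAddMonoidHom a
      rw [← map_zero (IsLocalRing.residue O), ← h1]
      exact (AddMonoidHom.map_trace (IsLocalRing.residue O).toAddMonoidHom a).symm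
    obtain ⟨c, hc'⟩ : ∃ c, c = a.map (IsLocalRing.residue O) := ⟨_, rfl⟩
    rw [← hc'] at hl ht ⊢
    have h1 : ad3 J c + c = l • (1 : Matrix m m _) := by
      have h3 := congrArg (fun M => J⁻¹ * M) hl
      simp only [mul_add, Matrix.mul_smul, hJi] at h3
      rw [← mul_assoc, ← mul_assoc, hJi, one_mul] at h3
      exact h3
    have h3 := congrArg Matrix.trace h1
    rw [Matrix.trace_add, ad3_trace hJ, ht, Matrix.trace_smul, Matrix.trace_one, add_zero, smul_eq_mul] at h3
    have h4 : l = 0 := (mul_eq_zero.1 h3.symm).resolve_right hN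
    rw [h4, zero_smul] at h1
    rw [mem_sp3]
    exact eq_neg_of_add_eq_zero_left h1
  have hlo1 : ∀ v, E98 J v v ∈ redL O L0 := by
    intro v
    by_cases hv : v = 0
    · have : E98 J v v = 0 := by rw [hv]; simp [E98]
      rw [this]
      exact (redL O L0).zero_mem
    · obtain ⟨u, hu⟩ : ∃ u, B98 J u v ≠ 0 := by
        by_contra hcon
        push Not at hcon
        exact hv (B_nondeg hJ hcon)
      obtain ⟨X, hX, hX'⟩ := (hmem _ _).1 (hS u v)
      obtain ⟨Y, hY, hY'⟩ := (hmem _ _).1 (hS v v)
      have h1 : (E98 J u v + E98 J v u) * (E98 J v v + E98 J v v) - (E98 J v v + E98 J v v) * (E98 J u v + E98 J v u)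
          ∈ redL O L0 := by
        refine (hmem _ _).2 ⟨X * Y - Y * X, ?_, ?_⟩
        · rw [Matrix.map_sub _ (fun _ _ => map_sub _ _ _), Matrix.map_mul, Matrix.map_mul, hL0]
          refine ⟨hbr _ hX _ hY, ?_⟩
          rw [Matrix.trace_sub, Matrix.trace_mul_comm, sub_self]
        · rw [Matrix.map_sub _ (fun _ _ => map_sub _ _ _), Matrix.map_mul, Matrix.map_mul, hX', hY']
      have h3 : (E98 J u v + E98 J v u) * (E98 J v v + E98 J v v) - (E98 J v v + E98 J v v) * (E98 J u v + E98 J v u)
          = (-(2 * 2 * B98 J u v)) • E98 J v v := by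
        simp only [add_mul, mul_add, E_mul_E, hJa, zero_smul]
        rw [B_alt hJa v u]
        ext i j
        simp only [Matrix.sub_apply, Matrix.add_apply, Matrix.smul_apply, Matrix.zero_apply, smul_eq_mul]
        ring
      rw [h3] at h1
      have h4 : -(2 * 2 * B98 J u v) ≠ 0 := neg_ne_zero.2 (mul_ne_zero (mul_ne_zero h2 h2) hu)
      have h5 := (redL O L0).smul_mem ((-(2 * 2 * B98 J u v))⁻¹) h1
      rwa [smul_smul, inv_mul_cancel₀ h4, one_smul] at h5
  have hlo2 : ∀ v w, E98 J v w + E98 J w v ∈ redL O L0 := by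
    intro v w
    have h1 := (redL O L0).sub_mem ((redL O L0).sub_mem (hlo1 (v + w)) (hlo1 v)) (hlo1 w)
    have e : E98 J (v + w) (v + w) - E98 J v v - E98 J w w = E98 J v w + E98 J w v := by
      rw [E_add_left, E_add_right, E_add_right]
      abel
    rwa [e] at h1
  have hlo : ∀ c ∈ sp3 J, c ∈ redL O L0 := by
    intro c hc
    have h1 := sub_ad3_eq hJ hJa c
    rw [mem_sp3.1 hc, sub_neg_eq_add] at h1
    have h3 : c + c ∈ redL O L0 := by
      rw [h1]
      exact (redL O L0).sum_mem fun i _ => hlo2 _ _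
    have h4 := (redL O L0).smul_mem ((2 : IsLocalRing.ResidueField O)⁻¹) h3
    rwa [← two_smul (IsLocalRing.ResidueField O) c, smul_smul, inv_mul_cancel₀ h2, one_smul] at h4
  -- a basis and integral lifts
  let s := Module.finBasis (IsLocalRing.ResidueField O) (sp3 J)
  have hlift := fun i => (hmem _ _).1 (hlo (s i : Matrix m m (IsLocalRing.ResidueField O)) (s i).2)
  choose X hX hXs using hlift
  let G : Matrix (Fin (Module.finrank (IsLocalRing.ResidueField O) (sp3 J)))
    (Fin (Module.finrank (IsLocalRing.ResidueField O) (sp3 J))) O := Matrix.of fun i j => (X i * X j).trace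
  have hGs : ∀ i j, (G.map (IsLocalRing.residue O)) i j = ((s i : Matrix m m (IsLocalRing.ResidueField O)) * (s j : Matrix m m _)).trace := by
    intro i j
    rw [← hXs, ← hXs, ← Matrix.map_mul]
    exact AddMonoidHom.map_trace (IsLocalRing.residue O).toAddMonoidHom _
  have hspan : ∀ y ∈ sp3 J, ∃ c : Fin (Module.finrank (IsLocalRing.ResidueField O) (sp3 J)) → IsLocalRing.ResidueField O,
      y = ∑ k, c k • (s k : Matrix m m (IsLocalRing.ResidueField O)) := by
    intro y hy
    refine ⟨s.repr ⟨y, hy⟩, ?_⟩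
    have h1 := congrArg (Submodule.subtype (sp3 J)) (s.sum_repr ⟨y, hy⟩)
    rw [map_sum] at h1
    simpa using h1.symm
  have hdet : IsUnit G.det := by
    rw [← IsLocalRing.residue_ne_zero_iff_isUnit, RingHom.map_det]
    intro h0
    obtain ⟨c, hc0, hc⟩ := Matrix.exists_mulVec_eq_zero_iff.2 h0
    have hx : (∑ k, c k • (s k : Matrix m m (IsLocalRing.ResidueField O))) = 0 := by
      apply sp3_nondeg h2 hJ hJa ((sp3 J).sum_mem fun k _ => (sp3 J).smul_mem _ (s k).2)
      intro y hy
      obtain ⟨d, rfl⟩ := hspan y hy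
      rw [Finset.sum_mul, Matrix.trace_sum]
      refine Finset.sum_eq_zero fun i _ => ?_
      have h1 := congrFun hc i
      rw [mulVec, dotProduct, Pi.zero_apply] at h1
      rw [Matrix.smul_mul, Matrix.trace_smul, Finset.mul_sum, Matrix.trace_sum]
      have h3 : ∑ j, ((s i : Matrix m m (IsLocalRing.ResidueField O)) * c j • (s j : Matrix m m _)).trace = 0 := by
        rw [← h1]
        refine Finset.sum_congr rfl fun j _ => ?_
        rw [Matrix.mul_smul, Matrix.trace_smul, smul_eq_mul, mul_comm]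
        congr 1
        exact (hGs i j).symm
      rw [h3, smul_zero]
    apply hc0
    ext k
    have h1 : ∑ k, c k • s k = 0 := by
      apply Subtype.ext
      simpa using hx
    exact Fintype.linearIndependent_iff.1 s.linearIndependent c h1 k
  -- the dual form
  obtain ⟨H, hHG⟩ : ∃ H, H * G = 1 := ⟨G⁻¹, nonsing_inv_mul _ hdet⟩
  obtain ⟨GK, hGK⟩ : ∃ GK, GK = G.map (algebraMap O K) := ⟨_, rfl⟩
  obtain ⟨HK, hHK⟩ : ∃ HK, HK = H.map (algebraMap O K) := ⟨_, rfl⟩
  obtain ⟨XK, hXK⟩ : ∃ XK : _ → Matrix m m K, XK = fun i => (X i).map (algebraMap O K) := ⟨_, rfl⟩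
  have hHGK : HK * GK = 1 := by
    rw [hHK, hGK, ← Matrix.map_mul, hHG]
    simp
  have hGHK : GK * HK = 1 := mul_eq_one_comm.1 hHGK
  have hGKt : ∀ i j, GK i j = (XK i * XK j).trace := by
    intro i j
    rw [hGK, hXK, ← Matrix.map_mul]
    exact AddMonoidHom.map_trace (algebraMap O K).toAddMonoidHom _
  have hXK0 : ∀ i, XK i ∈ L0 := by
    intro i
    rw [hXK]
    exact hX i
  -- the lifts span
  have hprim : ∀ x : Matrix m m K, x ≠ 0 → ∃ (c : K) (D : Matrix m m O), c ≠ 0 ∧ D.map (algebraMap O K) = c⁻¹ • x ∧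
      D.map (IsLocalRing.residue O) ≠ 0 := by
    intro x hx
    obtain ⟨c, hc0, hcO, i, j, hij⟩ := exists_max98 O x hx
    refine ⟨c, Matrix.of fun i j => ⟨c⁻¹ * x i j, hcO i j⟩, hc0, ?_, ?_⟩
    · ext k l
      rfl
    · intro h0
      have h1 := congrFun (congrFun h0 i) j
      have h3 : (⟨c⁻¹ * x i j, hcO i j⟩ : O) = 1 := Subtype.ext hij
      simp only [Matrix.map_apply, of_apply, Matrix.zero_apply, h3, map_one] at h1
      exact one_ne_zero h1
  have hspanK : ∀ x ∈ L0, ∃ a : Fin (Module.finrank (IsLocalRing.ResidueField O) (sp3 J)) → K,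
      x = ∑ k, a k • XK k := by
    intro x hx
    refine ⟨fun k => ∑ l, (x * XK l).trace * HK l k, ?_⟩
    by_contra hne
    obtain ⟨c, D, hc0, hD, hD0⟩ := hprim _ (sub_ne_zero.2 hne)
    have h1 : ∀ j, ((x - ∑ k, (∑ l, (x * XK l).trace * HK l k) • XK k) * XK j).trace = 0 := by
      intro j
      rw [sub_mul, Matrix.trace_sub, Finset.sum_mul, Matrix.trace_sum]
      have e1 : ∀ k, ((∑ l, (x * XK l).trace * HK l k) • XK k * XK j).trace = ∑ l, (x * XK l).trace * (HK l k * GK k j) := by
        intro k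
        rw [Matrix.smul_mul, Matrix.trace_smul, ← hGKt, smul_eq_mul, Finset.sum_mul]
        exact Finset.sum_congr rfl fun l _ => by ring
      simp only [e1]
      rw [Finset.sum_comm]
      simp only [← Finset.mul_sum]
      have e3 : ∀ l, ∑ k, HK l k * GK k j = (1 : Matrix _ _ K) l j := by
        intro l
        rw [← hHGK, mul_apply]
      simp only [e3, Matrix.one_apply]
      simp
    have h3 : x - ∑ k, (∑ l, (x * XK l).trace * HK l k) • XK k ∈ L0 :=
      L0.sub_mem hx (L0.sum_mem fun k _ => L0.smul_mem _ (hXK0 k))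
    have h4 : D.map (IsLocalRing.residue O) ∈ redL O L0 := by
      refine (hmem _ _).2 ⟨D, ?_, rfl⟩
      rw [hD]
      exact L0.smul_mem _ h3
    apply hD0
    apply sp3_nondeg h2 hJ hJa (hup _ h4)
    intro y hy
    obtain ⟨d, rfl⟩ := hspan y hy
    rw [Finset.sum_mul, Matrix.trace_sum]
    refine Finset.sum_eq_zero fun j _ => ?_
    rw [Matrix.smul_mul, Matrix.trace_smul]
    have h5 : (D * X j).trace = 0 := by
      apply hinj
      have h6 := AddMonoidHom.map_trace (algebraMap O K).toAddMonoidHom (D * X j)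
      rw [map_zero]
      refine h6.trans ?_
      have h7 : (D * X j).map (algebraMap O K) = c⁻¹ • ((x - ∑ k, (∑ l, (x * XK l).trace * HK l k) • XK k) * XK j) := by
        rw [Matrix.map_mul, hD, Matrix.smul_mul, hXK]
      refine (congrArg Matrix.trace h7).trans ?_
      rw [Matrix.trace_smul, h1, smul_zero]
    have h8 : ((s j : Matrix m m (IsLocalRing.ResidueField O)) * D.map (IsLocalRing.residue O)).trace = 0 := by
      rw [Matrix.trace_mul_comm, ← hXs, ← Matrix.map_mul, ← map_zero (IsLocalRing.residue O), ← h5]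
      exact (AddMonoidHom.map_trace (IsLocalRing.residue O).toAddMonoidHom _).symm
    rw [h8, smul_zero]
  -- the reduction of the Casimir operator
  have hth : ∀ b : Matrix m m (IsLocalRing.ResidueField O), (2 : IsLocalRing.ResidueField O) •
      th (H.map (IsLocalRing.residue O)) (fun i => (X i).map (IsLocalRing.residue O)) b
        = bᵀ - (b * J⁻¹).trace • J := by
    intro b
    refine th_sp hJ hJa (G := G.map (IsLocalRing.residue O)) ?_ ?_ ?_ ?_ b
    · intro i
      rw [hXs]
      exact (s i).2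
    · intro y hy
      obtain ⟨c, hc⟩ := hspan y hy
      refine ⟨c, ?_⟩
      rw [hc]
      exact Finset.sum_congr rfl fun k _ => by rw [hXs]
    · intro i j
      rw [hGs, hXs, hXs]
    · rw [← Matrix.map_mul, hHG]
      simp
  have hNN : Nonempty m := by
    by_contra hm
    have : IsEmpty m := not_nonempty_iff.1 hm
    exact hN (by rw [Fintype.card_eq_zero, Nat.cast_zero])
  have hJ0 : ∃ i j, J i j ≠ 0 := by
    by_contra hcon
    push Not at hcon
    have h1 : J = 0 := by
      ext i j
      exact hcon i j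
    rw [h1, Matrix.det_zero] at hJ
    exact not_isUnit_zero hJ
  obtain ⟨i0, j0, hij0⟩ := hJ0
  obtain ⟨l0, hl0⟩ : ∃ l0 : IsLocalRing.ResidueField O, 2 * l0 = -((Fintype.card m : ℕ) + 1) :=
    ⟨2⁻¹ * (-((Fintype.card m : ℕ) + 1)), by rw [← mul_assoc, mul_inv_cancel₀ h2, one_mul]⟩
  have hthJ : th (H.map (IsLocalRing.residue O)) (fun i => (X i).map (IsLocalRing.residue O)) J = l0 • J := by
    have h1 := hth J
    rw [J_transpose hJa, hJi', Matrix.trace_one] at h1
    have h3 : (2 : IsLocalRing.ResidueField O) •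
      th (H.map (IsLocalRing.residue O)) (fun i => (X i).map (IsLocalRing.residue O)) J
        = (2 : IsLocalRing.ResidueField O) • (l0 • J) := by
      rw [h1, smul_smul, hl0]
      ext i j
      simp only [Matrix.sub_apply, Matrix.neg_apply, Matrix.smul_apply, smul_eq_mul]
      ring
    ext i j
    have h4 := congrFun (congrFun h3 i) j
    rw [Matrix.smul_apply, Matrix.smul_apply, smul_eq_mul, smul_eq_mul] at h4
    exact mul_left_cancel₀ h2 h4
  have hthB : ∀ b : Matrix m m (IsLocalRing.ResidueField O),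
      th (H.map (IsLocalRing.residue O)) (fun i => (X i).map (IsLocalRing.residue O)) b = l0 • b →
      ∃ c : IsLocalRing.ResidueField O, b = c • J := by
    intro b hb
    have h1 := hth b
    rw [hb, smul_smul, hl0] at h1
    obtain ⟨t, ht⟩ : ∃ t, t = (b * J⁻¹).trace := ⟨_, rfl⟩
    rw [← ht] at h1
    have hJt := J_transpose hJa
    have e1 : ∀ i j, -((Fintype.card m : ℕ) + 1) * b i j = b j i - t * J i j := by
      intro i j
      have h3 := congrFun (congrFun h1 i) j
      simpa only [Matrix.smul_apply, Matrix.sub_apply, smul_eq_mul, transpose_apply] using h3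
    have e2 : ∀ i j, J j i = - J i j := by
      intro i j
      exact congrFun (congrFun hJt i) j
    have e3 : ∀ i j, b j i = - b i j := by
      intro i j
      have h3 := e1 i j
      have h4 := e1 j i
      rw [e2 i j] at h4
      have h5 : ((Fintype.card m + 2 : ℕ) : IsLocalRing.ResidueField O) * (b i j + b j i) = 0 := by
        push_cast
        linear_combination -h3 - h4
      have h6 := (mul_eq_zero.1 h5).resolve_left hN2
      linear_combination h6
    refine ⟨((Fintype.card m : ℕ) : IsLocalRing.ResidueField O)⁻¹ * t, ?_⟩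
    ext i j
    have h3 := e1 i j
    rw [e3 i j] at h3
    rw [Matrix.smul_apply, smul_eq_mul]
    field_simp
    linear_combination -h3
  -- an eigenvalue
  have hroot : ((TT H X).charpoly.map (IsLocalRing.residue O)).eval l0 = 0 := by
    rw [← Matrix.charpoly_map, TT_map]
    have h1 : (TT (H.map (IsLocalRing.residue O)) fun i => (X i).map (IsLocalRing.residue O)) *ᵥ (fun z => J z.1 z.2)
        = l0 • (fun z : m × m => J z.1 z.2) := by
      rw [TT_mulVec, hthJ]
      rfl
    rw [Matrix.eval_charpoly, ← Matrix.exists_mulVec_eq_zero_iff]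
    refine ⟨fun z => J z.1 z.2, ?_, ?_⟩
    · intro h0
      exact hij0 (congrFun h0 (i0, j0))
    · rw [sub_mulVec, h1, Matrix.scalar_apply, ← smul_one_eq_diagonal, smul_mulVec, one_mulVec, sub_self]
  obtain ⟨r, hr, hr0⟩ := root_lift O (Matrix.charpoly_monic _) hroot
  have hbex : ∃ b : Matrix m m K, b ≠ 0 ∧ th HK XK b = (algebraMap O K r) • b := by
    rw [← Matrix.charpoly_map, TT_map, Matrix.eval_charpoly, ← Matrix.exists_mulVec_eq_zero_iff] at hr
    obtain ⟨v, hv0, hv⟩ := hr
    refine ⟨Matrix.of fun i j => v (i, j), ?_, ?_⟩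
    · intro h0
      apply hv0
      ext z
      exact congrFun (congrFun h0 z.1) z.2
    · have h1 := TT_mulVec HK XK (Matrix.of fun i j => v (i, j))
      have h3 : (fun z : m × m => (Matrix.of fun i j => v (i, j)) z.1 z.2) = v := rfl
      rw [h3] at h1
      rw [sub_mulVec, Matrix.scalar_apply, ← smul_one_eq_diagonal, smul_mulVec, one_mulVec, sub_eq_zero] at hv
      rw [hXK, hHK] at h1 ⊢
      rw [← hv] at h1
      ext i j
      exact (congrFun h1 (i, j)).symm
  -- eigenvectors reduce to multiples of `J`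
  have hred : ∀ b : Matrix m m K, b ≠ 0 → th HK XK b = (algebraMap O K r) • b → IsUnit b.det ∧ b i0 j0 ≠ 0 := by
    intro b hb0 hb
    obtain ⟨c, D, hc0, hD, hD0⟩ := hprim b hb0
    have h1 : th H X D = r • D := by
      apply Matrix.map_injective hinj
      show (th H X D).map (algebraMap O K) = (r • D).map (algebraMap O K)
      rw [th_map, ← hHK, hD, ← hXK, th_smul, hb]
      ext i j
      have h3 := congrFun (congrFun hD i) j
      simp only [Matrix.map_apply, Matrix.smul_apply, smul_eq_mul, map_mul] at h3 ⊢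
      rw [h3]
      ring
    have h3 := congrArg (fun M => M.map (IsLocalRing.residue O)) h1
    simp only [th_map] at h3
    have h4 : (r • D).map (IsLocalRing.residue O) = l0 • D.map (IsLocalRing.residue O) := by
      ext i j
      simp only [Matrix.map_apply, Matrix.smul_apply, smul_eq_mul, map_mul, hr0]
    rw [h4] at h3
    obtain ⟨a, ha⟩ := hthB _ h3
    have ha0 : a ≠ 0 := by
      rintro rfl
      rw [zero_smul] at ha
      exact hD0 ha
    have hDdet : IsUnit D.det := by
      rw [← IsLocalRing.residue_ne_zero_iff_isUnit, RingHom.map_det]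
      have h5 : (IsLocalRing.residue O).mapMatrix D = a • J := ha
      rw [h5, Matrix.det_smul]
      exact mul_ne_zero (pow_ne_zero _ ha0) hJ.ne_zero
    constructor
    · rw [isUnit_iff_ne_zero]
      intro h0
      have h5 : (D.map (algebraMap O K)).det = 0 := by
        rw [hD, Matrix.det_smul, h0, mul_zero]
      have h6 : algebraMap O K D.det = 0 := by
        rw [RingHom.map_det]
        exact h5
      rw [← map_zero (algebraMap O K)] at h6
      exact hDdet.ne_zero (hinj h6)
    · intro h0
      have h5 : D i0 j0 = 0 := by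
        apply hinj
        have h6 := congrFun (congrFun hD i0) j0
        rw [Matrix.smul_apply, h0, smul_zero] at h6
        rw [map_zero]
        exact h6
      have h6 := congrFun (congrFun ha i0) j0
      rw [Matrix.map_apply, h5, map_zero, Matrix.smul_apply, smul_eq_mul] at h6
      exact mul_ne_zero ha0 hij0 h6.symm
  obtain ⟨b, hb0, hb⟩ := hbex
  refine ⟨b, (hred b hb0 hb).1, ?_⟩
  intro x hx
  have hcomm : th HK XK (xᵀ * b + b * x) = (algebraMap O K r) • (xᵀ * b + b * x) := by
    rw [th_comm hGKt hHGK x ?_ b, hb, Matrix.mul_smul, Matrix.smul_mul, smul_add]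
    intro i
    apply hspanK
    rw [hL0]
    refine ⟨hbr _ hx _ ((hL0 _).1 (hXK0 i)).1, ?_⟩
    rw [Matrix.trace_sub, Matrix.trace_mul_comm, sub_self]
  have hb00 := (hred b hb0 hb).2
  refine ⟨(xᵀ * b + b * x) i0 j0 / b i0 j0, ?_⟩
  by_contra hne
  have h1 := (hred _ (sub_ne_zero.2 hne) (by rw [th_sub, hcomm, th_smul, hb, smul_sub, smul_comm])).2
  apply h1
  rw [Matrix.sub_apply, Matrix.smul_apply, smul_eq_mul, div_mul_cancel₀ _ hb00, sub_self]

end Pool.Agent.Helper3.KM
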