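import Pool.Agent.Helper98.CK.Sp

/-!
The Lie algebra of the symplectic similitudes is a maximal one: a Lie algebra of matrices that contains the symplectic Lie
algebra either contains all matrices of trace zero or consists of similitudes.
-/

set_option autoImplicit false

open Matrix Pool.Agent.Helper98.CK

namespace Pool.Agent.Helper3.KM

variable {F : Type*} [Field F] {m : Type*} [Fintype m] [DecidableEq m]

/-- matrices which map every vector to a multiple are scalar -/
theorem scalar_of (p : Matrix m m F) (h : ∀ v : m → F, ∃ c : F, p *ᵥ v = c • v) : ∃ l : F, p = l • (1 : Matrix m m F) := by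
  classical
  have h1 : ∀ i j : m, i ≠ j → p i j = 0 := by
    intro i j hij
    obtain ⟨c, hc⟩ := h (Pi.single j 1)
    have := congrFun hc i
    simpa [hij, Pi.single_apply] using this
  have h2 : ∀ i j : m, p i i = p j j := by
    intro i j
    by_cases hij : i = j
    · rw [hij]
    obtain ⟨c, hc⟩ := h (Pi.single i 1 + Pi.single j 1)
    have e1 := congrFun hc i
    have e2 := congrFun hc j
    simp only [mulVec_add, mulVec_single_one, Pi.add_apply, Pi.smul_apply, Pi.single_apply, smul_eq_mul, col_apply,
      if_true, hij, Ne.symm hij, if_false, add_zero, zero_add, mul_one, h1 i j hij, h1 j i (Ne.symm hij)] at e1 e2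
    rw [e1, e2]
  by_cases hm : Nonempty m
  · obtain ⟨i0⟩ := hm
    refine ⟨p i0 i0, ?_⟩
    ext i j
    by_cases hij : i = j
    · subst hij
      simp [h2 i i0]
    · simp [hij, h1 i j hij]
  · have : IsEmpty m := not_nonempty_iff.1 hm
    exact ⟨0, Subsingleton.elim _ _⟩

theorem sp_max {J : Matrix m m F} (h2 : (2 : F) ≠ 0) (hJ : IsUnit J.det) (hJa : ∀ v, B98 J v v = 0)
    (L : Submodule F (Matrix m m F)) (hbr : ∀ x ∈ L, ∀ y ∈ L, x * y - y * x ∈ L)
    (hS : ∀ v w, E98 J v w + E98 J w v ∈ L) :
    (∀ x : Matrix m m F, x.trace = 0 → x ∈ L) ∨ ∀ c ∈ L, ∃ l : F, cᵀ * J + J * c = l • J := by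
  classical
  have hJt : Jᵀ = -J := by
    ext i j
    have h := B_alt hJa (Pi.single j 1) (Pi.single i 1)
    simpa [B98] using h
  have hJi : J⁻¹ * J = 1 := nonsing_inv_mul _ hJ
  have hJi' : J * J⁻¹ = 1 := mul_nonsing_inv _ hJ
  -- elementary matrices
  have hE1 : ∀ i j : m, E98 J (Pi.single i (1 : F)) (J⁻¹ *ᵥ Pi.single j 1) = Matrix.single i j 1 := by
    intro i j
    rw [E98, mulVec_mulVec, hJi', one_mulVec]
    ext k l
    rw [vecMulVec_apply, Matrix.single_apply]
    by_cases hk : i = k
    · subst hk
      by_cases hl : j = l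
      · subst hl; simp
      · simp [hl, Ne.symm hl]
    · simp [hk, Pi.single_apply, Ne.symm hk]
  have hdec : ∀ M : Matrix m m F, M = ∑ i, E98 J (M *ᵥ Pi.single i 1) (J⁻¹ *ᵥ Pi.single i 1) := by
    intro M
    have h1 : (1 : Matrix m m F) = ∑ i, Matrix.single i i (1 : F) := by
      rw [Matrix.sum_single_one]
    calc M = M * 1 := (mul_one M).symm
      _ = ∑ i, M * Matrix.single i i (1 : F) := by rw [h1, Finset.mul_sum]
      _ = _ := by
        refine Finset.sum_congr rfl fun i _ => ?_
        rw [← hE1, mul_E98]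
  -- adjoints
  have hadE : ∀ v w : m → F, J⁻¹ * (E98 J v w)ᵀ * J = - E98 J w v := by
    intro v w
    rw [E98, transpose_vecMulVec, mul_vecMulVec, mulVec_mulVec, hJi, one_mulVec, vecMulVec_mul, ← mulVec_transpose, hJt,
      neg_mulVec, E98]
    ext i j
    simp [vecMulVec_apply]
  have hadd : ∀ c : Matrix m m F, c - J⁻¹ * cᵀ * J ∈ L := by
    intro c
    have e1 : J⁻¹ * cᵀ * J = - ∑ i, E98 J (J⁻¹ *ᵥ Pi.single i 1) (c *ᵥ Pi.single i 1) := by
      conv_lhs => rw [hdec c]
      rw [transpose_sum, Finset.mul_sum, Finset.sum_mul, ← Finset.sum_neg_distrib]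
      exact Finset.sum_congr rfl fun i _ => hadE _ _
    rw [e1, sub_neg_eq_add]
    conv in c + _ => lhs; rw [hdec c]
    rw [← Finset.sum_add_distrib]
    exact L.sum_mem fun i _ => hS _ _
  by_cases hcase : ∀ c ∈ L, ∃ l : F, J⁻¹ * cᵀ * J + c = l • (1 : Matrix m m F)
  · right
    intro c hc
    obtain ⟨l, hl⟩ := hcase c hc
    refine ⟨l, ?_⟩
    have := congrArg (fun M => J * M) hl
    simp only [mul_add, mul_smul_comm, mul_one] at this
    rw [← mul_assoc, ← mul_assoc, hJi', one_mul] at this
    exact this
  · left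
    push Not at hcase
    obtain ⟨c, hc, hns⟩ := hcase
    -- a self-adjoint element
    obtain ⟨p, hp⟩ : ∃ p, p = J⁻¹ * cᵀ * J + c := ⟨_, rfl⟩
    have hpL : p ∈ L := by
      have h := L.sub_mem (L.add_mem hc hc) (hadd c)
      have e : c + c - (c - J⁻¹ * cᵀ * J) = p := by rw [hp]; abel
      rwa [e] at h
    have hself : ∀ x y : m → F, B98 J (p *ᵥ x) y = B98 J x (p *ᵥ y) := by
      intro x y
      have e1 : J * p = cᵀ * J + J * c := by
        rw [hp, mul_add, ← mul_assoc, ← mul_assoc, hJi', one_mul]
      have e2 : pᵀ * J = cᵀ * J + J * c := by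
        have h3 : (J⁻¹ * cᵀ * J)ᵀ * J = J * c := by
          rw [transpose_mul, transpose_mul, transpose_transpose, transpose_nonsing_inv, hJt]
          have h4 : (-J)⁻¹ = - J⁻¹ := by
            apply inv_eq_left_inv
            rw [neg_mul_neg, hJi]
          rw [h4, mul_neg, neg_mul_neg, mul_assoc, mul_assoc, hJi, mul_one]
        rw [hp, transpose_add, add_mul, h3, add_comm]
      rw [B98, B98, mulVec_mulVec, e1, ← e2, ← mulVec_mulVec, dotProduct_mulVec x pᵀ, vecMul_transpose]
    have hiso : ∀ v, B98 J (p *ᵥ v) v = 0 := by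
      intro v
      have h := hself v v
      rw [B_alt hJa v (p *ᵥ v)] at h
      have h3 : 2 * B98 J (p *ᵥ v) v = 0 := by linear_combination h
      exact (mul_eq_zero.1 h3).resolve_left h2
    obtain ⟨v, hv⟩ : ∃ v : m → F, ∀ a : F, p *ᵥ v ≠ a • v := by
      by_contra hcon
      push Not at hcon
      obtain ⟨l, hl⟩ := scalar_of p hcon
      exact hns l (hp ▸ hl)
    -- brackets
    have hbrS : ∀ u x y : m → F, E98 J x y - E98 J y x ∈ L →
        (B98 J x u) • (E98 J u y - E98 J y u) + (B98 J y u) • (E98 J x u - E98 J u x) ∈ L := by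
      intro u x y h
      have h3 := hbr _ (hS u u) _ h
      have e : (E98 J u u + E98 J u u) * (E98 J x y - E98 J y x) - (E98 J x y - E98 J y x) * (E98 J u u + E98 J u u)
          = (2 : F) • ((B98 J x u) • (E98 J u y - E98 J y u) + (B98 J y u) • (E98 J x u - E98 J u x)) := by
        have q1 : B98 J u y = - B98 J y u := B_alt hJa u y
        have q2 : B98 J u x = - B98 J x u := B_alt hJa u x
        rw [two_smul]
        simp only [add_mul, mul_add, sub_mul, mul_sub, E_mul_E, q1, q2, neg_smul, smul_sub]
        abel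
      rw [e] at h3
      have h4 := L.smul_mem ((2 : F)⁻¹) h3
      rwa [smul_smul, inv_mul_cancel₀ h2, one_smul] at h4
    have hA0 : E98 J v (p *ᵥ v) - E98 J (p *ᵥ v) v ∈ L := by
      have h3 := hbr _ (hS v v) _ hpL
      have e : (E98 J v v + E98 J v v) * p - p * (E98 J v v + E98 J v v)
          = (2 : F) • (E98 J v (p *ᵥ v) - E98 J (p *ᵥ v) v) := by
        have q : E98 J v v * p = E98 J v (p *ᵥ v) := by
          refine Matrix.ext_of_mulVec_single fun i => ?_
          rw [← mulVec_mulVec, E98_mulVec, E98_mulVec, hself]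
        rw [two_smul, mul_add, add_mul, q, mul_E98]
        abel
      rw [e] at h3
      have h4 := L.smul_mem ((2 : F)⁻¹) h3
      rwa [smul_smul, inv_mul_cancel₀ h2, one_smul] at h4
    -- all vectors orthogonal to `x`
    have hanti : ∀ x y : m → F, E98 J x y - E98 J y x ∈ L → E98 J y x - E98 J x y ∈ L := by
      intro x y h
      rw [← neg_sub]
      exact L.neg_mem h
    have step : ∀ x y : m → F, E98 J x y - E98 J y x ∈ L → B98 J y x = 0 → x ≠ 0 → (∀ a : F, y ≠ a • x) →
        ∀ u, B98 J u x = 0 → E98 J x u - E98 J u x ∈ L := by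
      intro x y h hxy hx0 hind u hu
      have k1 : ∀ u, B98 J u x = 0 → B98 J y u ≠ 0 → E98 J x u - E98 J u x ∈ L := by
        intro u hu hyu
        have h3 := hbrS u x y h
        rw [B_alt hJa x u, hu, neg_zero, zero_smul, zero_add] at h3
        have h4 := L.smul_mem ((B98 J y u)⁻¹) h3
        rwa [smul_smul, inv_mul_cancel₀ hyu, one_smul] at h4
      by_cases hyu : B98 J y u = 0
      · obtain ⟨t, ht1, ht2⟩ : ∃ t, B98 J t x = 0 ∧ B98 J y t ≠ 0 := by
          by_contra hcon
          push Not at hcon
          -- then y is a multiple of x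
          obtain ⟨x0, hx1⟩ : ∃ x0, B98 J x0 x ≠ 0 := by
            by_contra hc2
            push Not at hc2
            exact hx0 (B_nondeg hJ hc2)
          apply hind ((B98 J x0 x)⁻¹ * B98 J x0 y)
          rw [← sub_eq_zero]
          apply B_nondeg hJ
          intro z
          have h5 := hcon ((B98 J x0 x) • z - (B98 J z x) • x0) (by
            rw [B_sub_left, B_smul_left, B_smul_left]
            ring)
          rw [B_sub_right, B_smul_right, B_smul_right, B_alt hJa y z, B_alt hJa y x0] at h5
          rw [B_sub_right, B_smul_right]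
          field_simp
          linear_combination -h5
        have h5 := k1 t ht1 ht2
        have h6 := k1 (u + t) (by rw [B_add_left, hu, ht1, add_zero]) (by rw [B_add_right, hyu, zero_add]; exact ht2)
        have h7 := L.sub_mem h6 h5
        have e : E98 J x (u + t) - E98 J (u + t) x - (E98 J x t - E98 J t x) = E98 J x u - E98 J u x := by
          rw [E_add_right, E_add_left]
          abel
        rwa [e] at h7
      · exact k1 u hu hyu
    have hv0 : v ≠ 0 := by
      rintro rfl
      apply hv 0
      simp
    have g0 : ∀ u, B98 J u v = 0 → E98 J v u - E98 J u v ∈ L := step v (p *ᵥ v) hA0 (hiso v) hv0 hv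
    have g1 : ∀ x : m → F, x ≠ 0 → (∀ u, B98 J u x = 0 → E98 J x u - E98 J u x ∈ L) →
        ∀ y, B98 J y x = 0 → ∀ u, B98 J u y = 0 → E98 J y u - E98 J u y ∈ L := by
      intro x hx0 hx y hyx u huy
      by_cases hy : ∃ a : F, y = a • x
      · obtain ⟨a, rfl⟩ := hy
        by_cases ha : a = 0
        · subst ha
          have e : E98 J ((0 : F) • x) u - E98 J u ((0 : F) • x) = 0 := by
            rw [E_smul_left, E_smul_right, zero_smul, zero_smul, sub_zero]
          rw [e]
          exact L.zero_mem
        · rw [B_smul_right] at huy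
          have h3 := L.smul_mem a (hx u ((mul_eq_zero.1 huy).resolve_left ha))
          rwa [smul_sub, ← E_smul_left, ← E_smul_right] at h3
      · push Not at hy
        have hy0 : y ≠ 0 := by
          rintro rfl
          exact hy 0 (zero_smul _ _).symm
        refine step y x (hanti _ _ (hx y hyx)) (by rw [B_alt hJa, hyx, neg_zero]) hy0 ?_ u huy
        rintro a rfl
        have ha : a ≠ 0 := by
          rintro rfl
          exact hx0 (zero_smul _ _)
        exact hy a⁻¹ (by rw [smul_smul, inv_mul_cancel₀ ha, one_smul])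
    have g2 : ∀ y u : m → F, B98 J u y = 0 → E98 J y u - E98 J u y ∈ L := by
      intro y
      by_cases hyv : B98 J y v = 0
      · exact g1 v hv0 g0 y hyv
      · -- a vector orthogonal to both
        obtain ⟨t, ht⟩ : ∃ t, t = (B98 J (p *ᵥ v) y) • v - (B98 J v y) • (p *ᵥ v) := ⟨_, rfl⟩
        have ht1 : B98 J t v = 0 := by
          rw [ht, B_sub_left, B_smul_left, B_smul_left, hJa, hiso]
          ring
        have ht2 : B98 J t y = 0 := by
          rw [ht, B_sub_left, B_smul_left, B_smul_left]
          ring
        have hvy : B98 J v y ≠ 0 := by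
          rw [B_alt hJa]
          exact neg_ne_zero.2 hyv
        have ht0 : t ≠ 0 := by
          intro h0
          apply hv ((B98 J v y)⁻¹ * B98 J (p *ᵥ v) y)
          rw [h0] at ht
          have h5 := sub_eq_zero.1 ht.symm
          rw [mul_smul, h5, smul_smul, inv_mul_cancel₀ hvy, one_smul]
        exact g1 t ht0 (g1 v hv0 g0 t ht1) y (by rw [B_alt hJa, ht2, neg_zero])
    -- elementary matrices
    have k1 : ∀ i j : m, i ≠ j → Matrix.single i j (1 : F) ∈ L := by
      intro i j hij
      have h3 := g2 (Pi.single i 1) (J⁻¹ *ᵥ Pi.single j 1) (by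
        rw [B_alt hJa, B98, mulVec_mulVec, hJi', one_mulVec]
        simp [hij])
      have h4 := L.smul_mem ((2 : F)⁻¹) (L.add_mem h3 (hS (Pi.single i 1) (J⁻¹ *ᵥ Pi.single j 1)))
      have e : ∀ a b : Matrix m m F, a - b + (a + b) = (2 : F) • a := by
        intro a b
        rw [two_smul]
        abel
      rwa [e, smul_smul, inv_mul_cancel₀ h2, one_smul, hE1] at h4
    intro x hx
    by_cases hm : Nonempty m
    · obtain ⟨i0⟩ := hm
      have k2 : ∀ i : m, Matrix.single i i (1 : F) - Matrix.single i0 i0 (1 : F) ∈ L := by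
        intro i
        by_cases hi : i = i0
        · rw [hi, sub_self]
          exact L.zero_mem
        · have h3 := hbr _ (k1 i i0 hi) _ (k1 i0 i (Ne.symm hi))
          rwa [Matrix.single_mul_single_same, Matrix.single_mul_single_same, mul_one] at h3
      have e : x = ∑ i, ∑ j, x i j • (if i = j then Matrix.single i i (1 : F) - Matrix.single i0 i0 (1 : F)
          else Matrix.single i j (1 : F)) := by
        have h3 : ∀ i j : m, x i j • (if i = j then Matrix.single i i (1 : F) - Matrix.single i0 i0 (1 : F)
          else Matrix.single i j (1 : F)) = Matrix.single i j (x i j) -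
            (if i = j then x i j • Matrix.single i0 i0 (1 : F) else 0) := by
          intro i j
          split_ifs with hij
          · subst hij
            rw [smul_sub, Matrix.smul_single, smul_eq_mul, mul_one]
          · rw [Matrix.smul_single, smul_eq_mul, mul_one, sub_zero]
        simp only [h3, Finset.sum_sub_distrib]
        rw [← Matrix.matrix_eq_sum_single x]
        simp only [Finset.sum_ite_eq, Finset.mem_univ, if_true]
        rw [← Finset.sum_smul]
        have h4 : ∑ i, x i i = 0 := hx
        rw [h4, zero_smul, sub_zero]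
      rw [e]
      refine L.sum_mem fun i _ => L.sum_mem fun j _ => L.smul_mem _ ?_
      split_ifs with hij
      · exact k2 i
      · exact k1 i j hij
    · have : IsEmpty m := not_nonempty_iff.1 hm
      have e : x = 0 := Subsingleton.elim _ _
      rw [e]
      exact L.zero_mem

end Pool.Agent.Helper3.KM
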